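import Mathlib
import Pool.Agent.H59.Pyr.Main

/-!
The inclusion of the space of pyramids (weak topology) into the closed subsets of `(𝒳, □)` with
the Wijsman topology is a topological embedding.
-/

set_option autoImplicit false

open TopologicalSpace Topology Pool.Agent.H59.Pyr

namespace Pool.Agent.Results.MP_5a76a9_gt.WijsmanEmbedding

/-- There is exactly one compact metrizable topology `τ` on the set of pyramids whose convergent
sequences are the weakly convergent ones, and for it the inclusion into the closed subsets of
`(𝒳, □)` with the Wijsman topology is a topological embedding. -/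
theorem result : ∃ τ : TopologicalSpace Pyramid, Pyramid.IsWeakTopology τ ∧
    (∀ τ' : TopologicalSpace Pyramid, Pyramid.IsWeakTopology τ' → τ' = τ) ∧
    @IsEmbedding Pyramid (Closeds MM) τ wijsmanTopology Pyramid.toCloseds :=
  ⟨weakTop, isWeakTopology_weakTop, fun _ h => isWeak_eq h isWeakTopology_weakTop,
    wijsman_embedding weakTop isWeakTopology_weakTop⟩

end Pool.Agent.Results.MP_5a76a9_gt.WijsmanEmbedding
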